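import Pool.Agent.Helper71.W4.Shape

/-!
# Comparison of the powers of `r`
-/

set_option autoImplicit false

namespace Pool.Agent.Helper71.W4

open Polynomial (X C coeff)

variable {K : Type} [Field K]

/-- the coefficients of `g(x - q r z, r)` -/
noncomputable def rho (g : Fin 4 → K) (q : K) (e : ℕ) : MvPolynomial (Fin 2) K :=
  (if e = 0 then MvPolynomial.C (g 0) * MvPolynomial.X 0 ^ 3 else 0) +
  (if e = 1 then MvPolynomial.C (-(3 * g 0 * q)) * (MvPolynomial.X 0 ^ 2 * MvPolynomial.X 1)
    else 0) +
  (if e = 2 then MvPolynomial.C (3 * g 0 * q ^ 2) * (MvPolynomial.X 0 * MvPolynomial.X 1 ^ 2) +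
    MvPolynomial.C (g 1) * MvPolynomial.X 0 ^ 2 else 0) +
  (if e = 3 then MvPolynomial.C (-(g 0 * q ^ 3)) * MvPolynomial.X 1 ^ 3 +
    MvPolynomial.C (-(2 * g 1 * q)) * (MvPolynomial.X 0 * MvPolynomial.X 1) else 0) +
  (if e = 4 then MvPolynomial.C (g 1 * q ^ 2) * MvPolynomial.X 1 ^ 2 +
    MvPolynomial.C (g 2) * MvPolynomial.X 0 else 0) +
  (if e = 5 then MvPolynomial.C (-(g 2 * q)) * MvPolynomial.X 1 else 0) +
  (if e = 6 then MvPolynomial.C (g 3) else 0)

theorem coeff_gam (g : Fin 4 → K) (q : K) (e : ℕ) :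
    (gam g (C (MvPolynomial.X 0 : MvPolynomial (Fin 2) K) -
      C (MvPolynomial.C q * MvPolynomial.X 1) * X) X).coeff e = rho g q e := by
  have h1 : gam g (C (MvPolynomial.X 0 : MvPolynomial (Fin 2) K) -
      C (MvPolynomial.C q * MvPolynomial.X 1) * X) X =
      C (MvPolynomial.C (g 0) * MvPolynomial.X 0 ^ 3) * X ^ 0 +
      C (MvPolynomial.C (-(3 * g 0 * q)) * (MvPolynomial.X 0 ^ 2 * MvPolynomial.X 1)) * X ^ 1 +
      C (MvPolynomial.C (3 * g 0 * q ^ 2) * (MvPolynomial.X 0 * MvPolynomial.X 1 ^ 2) +
        MvPolynomial.C (g 1) * MvPolynomial.X 0 ^ 2) * X ^ 2 +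
      C (MvPolynomial.C (-(g 0 * q ^ 3)) * MvPolynomial.X 1 ^ 3 +
        MvPolynomial.C (-(2 * g 1 * q)) * (MvPolynomial.X 0 * MvPolynomial.X 1)) * X ^ 3 +
      C (MvPolynomial.C (g 1 * q ^ 2) * MvPolynomial.X 1 ^ 2 +
        MvPolynomial.C (g 2) * MvPolynomial.X 0) * X ^ 4 +
      C (MvPolynomial.C (-(g 2 * q)) * MvPolynomial.X 1) * X ^ 5 +
      C (MvPolynomial.C (g 3)) * X ^ 6 := by
    have ha : ∀ a : K, algebraMap K (Polynomial (MvPolynomial (Fin 2) K)) a =
      C (MvPolynomial.C a) := fun _ => rfl
    simp only [gam, ha, map_mul, map_add, map_sub, map_neg, map_pow, map_ofNat]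
    ring
  rw [h1]
  simp only [Polynomial.coeff_add, Polynomial.coeff_C_mul_X_pow]
  rfl

/-- the coefficients of the left side -/
noncomputable def lam (s t : ℕ) (l0 l1 l2 l3 l4 l5 : MvPolynomial (Fin 2) K) (e : ℕ) :
    MvPolynomial (Fin 2) K :=
  (if e = 0 then l0 else 0) + (if e = t then l1 else 0) + (if e = 2 * t then l2 else 0) +
  (if e = s + t then l3 else 0) + (if e = s + 2 * t then l4 else 0) +
  (if e = 2 * s + 2 * t then l5 else 0)

theorem coeff_lam (s t : ℕ) (l0 l1 l2 l3 l4 l5 : MvPolynomial (Fin 2) K) (e : ℕ) :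
    (C l0 * X ^ 0 + C l1 * X ^ t + C l2 * X ^ (2 * t) + C l3 * X ^ (s + t) +
      C l4 * X ^ (s + 2 * t) + C l5 * X ^ (2 * s + 2 * t) :
      Polynomial (MvPolynomial (Fin 2) K)).coeff e = lam s t l0 l1 l2 l3 l4 l5 e := by
  simp only [Polynomial.coeff_add, Polynomial.coeff_C_mul_X_pow]
  rfl

/-- `z` does not occur -/
def ZF (m : MvPolynomial (Fin 2) K) : Prop :=
  MvPolynomial.aeval (![MvPolynomial.X 0, 0] : Fin 2 → MvPolynomial (Fin 2) K) m = m

theorem ZF.zero : ZF (0 : MvPolynomial (Fin 2) K) := map_zero _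

theorem ZF.add {m n : MvPolynomial (Fin 2) K} (hm : ZF m) (hn : ZF n) : ZF (m + n) := by
  unfold ZF at hm hn ⊢
  rw [map_add, hm, hn]

theorem ZF.C (a : K) : ZF (MvPolynomial.C a : MvPolynomial (Fin 2) K) := MvPolynomial.aeval_C _ _

theorem ZF.x (n : ℕ) : ZF (MvPolynomial.X 0 ^ n : MvPolynomial (Fin 2) K) := by
  unfold ZF
  rw [map_pow, MvPolynomial.aeval_X]
  rfl

theorem ZF.mul {m n : MvPolynomial (Fin 2) K} (hm : ZF m) (hn : ZF n) : ZF (m * n) := by
  unfold ZF at hm hn ⊢
  rw [map_mul, hm, hn]

theorem ZF.ite {p : Prop} [Decidable p] {m : MvPolynomial (Fin 2) K} (hm : ZF m) :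
    ZF (if p then m else 0) := by
  split_ifs
  · exact hm
  · exact ZF.zero

theorem ZF.of_C_mul {a : K} (ha : a ≠ 0) {m : MvPolynomial (Fin 2) K}
    (h : ZF (MvPolynomial.C a * m)) : ZF m := by
  have h1 : m = MvPolynomial.C a⁻¹ * (MvPolynomial.C a * m) := by
    rw [← mul_assoc, ← MvPolynomial.C_mul, inv_mul_cancel₀ ha, MvPolynomial.C_1, one_mul]
  rw [h1]
  exact (ZF.C _).mul h

theorem ZF.of_sq (h2 : (2 : K) ≠ 0) {m : MvPolynomial (Fin 2) K} (h : ZF (m ^ 2)) : ZF m := by
  unfold ZF at h ⊢
  set φ := (MvPolynomial.aeval (![MvPolynomial.X 0, 0] : Fin 2 → MvPolynomial (Fin 2) K) :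
    MvPolynomial (Fin 2) K →ₐ[K] MvPolynomial (Fin 2) K) with hφ
  rw [map_pow] at h
  rcases sq_eq_sq_iff_eq_or_eq_neg.1 h with h1 | h1
  · exact h1
  · have h3 : φ (φ m) = φ m := by
      have h4 : φ.comp φ = φ := by
        apply MvPolynomial.algHom_ext
        intro i
        rw [AlgHom.comp_apply, hφ, MvPolynomial.aeval_X]
        fin_cases i
        · exact MvPolynomial.aeval_X _ _
        · exact map_zero _
      exact DFunLike.congr_fun h4 m
    have h5 : φ m = - φ m := by
      rw [← map_neg, ← h1, h3]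
    have h6 : MvPolynomial.C 2 * φ m = 0 := by
      have h7 : (MvPolynomial.C 2 : MvPolynomial (Fin 2) K) = 2 := map_ofNat _ 2
      rw [h7]
      linear_combination h5
    have h7 : φ m = 0 := by
      refine (mul_eq_zero.1 h6).resolve_left fun h8 => h2 ?_
      exact (map_eq_zero_iff _ (MvPolynomial.C_injective (Fin 2) K)).1 h8
    rw [h7] at h1 ⊢
    exact (neg_eq_zero.1 h1.symm).symm

theorem ZF.rho (g : Fin 4 → K) (e : ℕ) : ZF (rho g 0 e) := by
  unfold W4.rho
  refine ((((((ZF.ite ?_).add (ZF.ite ?_)).add (ZF.ite ?_)).add (ZF.ite ?_)).add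
    (ZF.ite ?_)).add (ZF.ite ?_)).add (ZF.ite ?_)
  · exact (ZF.C _).mul (ZF.x 3)
  · rw [mul_zero, neg_zero, MvPolynomial.C_0, zero_mul]
    exact ZF.zero
  · rw [zero_pow two_ne_zero, mul_zero, MvPolynomial.C_0, zero_mul, zero_add]
    exact (ZF.C _).mul (ZF.x 2)
  · rw [zero_pow three_ne_zero, mul_zero, mul_zero, neg_zero, MvPolynomial.C_0, zero_mul,
      zero_mul, zero_add]
    exact ZF.zero
  · rw [zero_pow two_ne_zero, mul_zero, MvPolynomial.C_0, zero_mul, zero_add]
    have := ZF.x (K := K) 1
    rw [pow_one] at this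
    exact (ZF.C _).mul this
  · rw [mul_zero, neg_zero, MvPolynomial.C_0, zero_mul]
    exact ZF.zero
  · exact ZF.C _

/-- the restriction to `z = 1` -/
noncomputable def phi (K : Type) [Field K] : MvPolynomial (Fin 2) K →ₐ[K] Polynomial K :=
  MvPolynomial.aeval ![X, 1]

theorem phi_C (a : K) : phi K (MvPolynomial.C a) = C a := MvPolynomial.aeval_C _ _

theorem phi_0 : phi K (MvPolynomial.X 0) = X := MvPolynomial.aeval_X _ _

theorem phi_1 : phi K (MvPolynomial.X 1) = 1 := MvPolynomial.aeval_X _ _

theorem rho_one (g : Fin 4 → K) (q : K) :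
    rho g q 1 = MvPolynomial.C (-(3 * g 0 * q)) * (MvPolynomial.X 0 ^ 2 * MvPolynomial.X 1) := by
  simp [rho]

theorem rho_two (g : Fin 4 → K) (q : K) : rho g q 2 = MvPolynomial.C (3 * g 0 * q ^ 2) *
    (MvPolynomial.X 0 * MvPolynomial.X 1 ^ 2) + MvPolynomial.C (g 1) * MvPolynomial.X 0 ^ 2 := by
  simp [rho]

theorem rho_three (g : Fin 4 → K) (q : K) : rho g q 3 = MvPolynomial.C (-(g 0 * q ^ 3)) *
    MvPolynomial.X 1 ^ 3 + MvPolynomial.C (-(2 * g 1 * q)) *
      (MvPolynomial.X 0 * MvPolynomial.X 1) := by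
  simp [rho]

theorem rho_four (g : Fin 4 → K) (q : K) : rho g q 4 = MvPolynomial.C (g 1 * q ^ 2) *
    MvPolynomial.X 1 ^ 2 + MvPolynomial.C (g 2) * MvPolynomial.X 0 := by
  simp [rho]

theorem rho_five (g : Fin 4 → K) (q : K) :
    rho g q 5 = MvPolynomial.C (-(g 2 * q)) * MvPolynomial.X 1 := by
  simp [rho]

theorem rho_six (g : Fin 4 → K) (q : K) : rho g q 6 = MvPolynomial.C (g 3) := by
  simp [rho]

/-- coefficients after the restriction -/
theorem phi_one (g : Fin 4 → K) (q : K) : phi K (rho g q 1) = C (-(3 * g 0 * q)) * X ^ 2 := by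
  rw [rho_one, map_mul, map_mul, map_pow, phi_C, phi_0, phi_1, mul_one]

theorem phi_two (g : Fin 4 → K) (q : K) : phi K (rho g q 2) =
    C (3 * g 0 * q ^ 2) * X + C (g 1) * X ^ 2 := by
  rw [rho_two, map_add, map_mul (phi K), map_mul (phi K), map_mul (phi K), map_pow (phi K),
    map_pow (phi K), phi_C, phi_C, phi_0, phi_1, one_pow, mul_one]

theorem phi_three (g : Fin 4 → K) (q : K) : phi K (rho g q 3) =
    C (-(g 0 * q ^ 3)) + C (-(2 * g 1 * q)) * X := by
  rw [rho_three, map_add, map_mul, map_mul, map_mul, map_pow, phi_C, phi_C, phi_0, phi_1,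
    one_pow, mul_one, mul_one]

theorem phi_four (g : Fin 4 → K) (q : K) : phi K (rho g q 4) =
    C (g 1 * q ^ 2) + C (g 2) * X := by
  rw [rho_four, map_add, map_mul (phi K), map_mul (phi K), map_pow (phi K), phi_C, phi_C, phi_0,
    phi_1, one_pow, mul_one]

theorem phi_five (g : Fin 4 → K) (q : K) : phi K (rho g q 5) = C (-(g 2 * q)) := by
  rw [rho_five, map_mul, phi_C, phi_1, mul_one]

/-- **comparison** -/
theorem comp_r (h2 : (2 : K) ≠ 0) {s t : ℕ} (hs : 0 < s) (ht : 0 < t) (hst : s ≠ t)
    (hle : s + t ≤ 6) {a c b q : K} (ha : a ≠ 0) (hc : c ≠ 0) {g : Fin 4 → K} (hg : g 0 ≠ 0)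
    {α₁ β₁ α₂ β₂ : MvPolynomial (Fin 2) K} (hα₂ : 3 < s + t → α₂ = 0)
    (e : (C (MvPolynomial.C c * α₂) * X ^ (s + t) - C α₁ * X ^ t) ^ 2 -
      C (MvPolynomial.C (4 * a)) * (C (MvPolynomial.C b * MvPolynomial.X 0 ^ 3) - C β₁ * X ^ t +
      C (MvPolynomial.C c * β₂) * X ^ (s + t)) =
      gam g (C (MvPolynomial.X 0 : MvPolynomial (Fin 2) K) -
      C (MvPolynomial.C q * MvPolynomial.X 1) * X) X) :
    (ZF α₁ ∧ ZF β₁ ∧ ZF α₂ ∧ ZF β₂) ∨ (α₁ = 0 ∧ β₁ = 0) ∨ (α₂ = 0 ∧ β₂ = 0) ∨
      (g 2 = 0 ∧ g 3 = 0) := by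
  have h4 : (4 : K) * a ≠ 0 := by
    have : (4 : K) = 2 * 2 := by norm_num
    rw [this]
    exact mul_ne_zero (mul_ne_zero h2 h2) ha
  have e1 : (C (MvPolynomial.C c * α₂) * X ^ (s + t) - C α₁ * X ^ t) ^ 2 -
      C (MvPolynomial.C (4 * a)) * (C (MvPolynomial.C b * MvPolynomial.X 0 ^ 3) - C β₁ * X ^ t +
      C (MvPolynomial.C c * β₂) * X ^ (s + t)) =
      C (MvPolynomial.C (-(4 * a * b)) * MvPolynomial.X 0 ^ 3) * X ^ 0 +
      C (MvPolynomial.C (4 * a) * β₁) * X ^ t + C (α₁ ^ 2) * X ^ (2 * t) +
      C (MvPolynomial.C (-(4 * a * c)) * β₂) * X ^ (s + t) +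
      C (MvPolynomial.C (-(2 * c)) * (α₁ * α₂)) * X ^ (s + 2 * t) +
      C (MvPolynomial.C (c ^ 2) * α₂ ^ 2) * X ^ (2 * s + 2 * t) := by
    simp only [map_mul, map_neg, map_pow, map_ofNat, pow_add, pow_mul, pow_zero]
    ring
  have key : ∀ i : ℕ, lam s t (MvPolynomial.C (-(4 * a * b)) * MvPolynomial.X 0 ^ 3)
      (MvPolynomial.C (4 * a) * β₁) (α₁ ^ 2) (MvPolynomial.C (-(4 * a * c)) * β₂)
      (MvPolynomial.C (-(2 * c)) * (α₁ * α₂)) (MvPolynomial.C (c ^ 2) * α₂ ^ 2) i =
      rho g q i := by
    intro i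
    rw [← coeff_lam, ← coeff_gam, ← e1, e]
  have hCne : ∀ {x : K}, x ≠ 0 → (MvPolynomial.C x : MvPolynomial (Fin 2) K) ≠ 0 := fun hx h =>
    hx ((map_eq_zero_iff _ (MvPolynomial.C_injective (Fin 2) K)).1 h)
  have h4c : -(4 * a * c) ≠ 0 := neg_ne_zero.2 (mul_ne_zero h4 hc)
  by_cases hq : q = 0
  · left
    subst hq
    have k1 := key t
    have k2 := key (2 * t)
    have k3 := key (s + t)
    have k4 := key (2 * s + 2 * t)
    unfold lam at k1 k2 k3 k4
    rw [if_neg (by omega), if_pos rfl, if_neg (by omega), if_neg (by omega), if_neg (by omega),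
      if_neg (by omega)] at k1
    rw [if_neg (by omega), if_neg (by omega), if_pos rfl, if_neg (by omega), if_neg (by omega),
      if_neg (by omega)] at k2
    rw [if_neg (by omega), if_neg (by omega), if_neg (by omega), if_pos rfl, if_neg (by omega),
      if_neg (by omega)] at k3
    rw [if_neg (by omega), if_neg (by omega), if_neg (by omega), if_neg (by omega),
      if_neg (by omega), if_pos rfl] at k4
    simp only [zero_add, add_zero] at k1 k2 k3 k4
    refine ⟨ZF.of_sq h2 (k2 ▸ ZF.rho g _), ZF.of_C_mul h4 (k1 ▸ ZF.rho g _), ?_,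
      ZF.of_C_mul h4c (k3 ▸ ZF.rho g _)⟩
    exact ZF.of_sq h2 (ZF.of_C_mul (pow_ne_zero 2 hc) (k4 ▸ ZF.rho g _))
  · right
    -- the third coefficient does not vanish
    have n3 : rho g q 3 ≠ 0 := by
      intro h
      have h5 := congrArg (fun f => (phi K f).coeff 0) h
      simp only [phi_three, map_zero, Polynomial.coeff_add, Polynomial.coeff_C_zero,
        Polynomial.coeff_C_mul, Polynomial.coeff_X_zero, mul_zero, add_zero,
        Polynomial.coeff_zero] at h5
      exact neg_ne_zero.2 (mul_ne_zero hg (pow_ne_zero 3 hq)) h5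
    have hcase : t = 3 ∨ s + t = 3 := by
      by_contra hcon
      push Not at hcon
      apply n3
      rw [← key 3]
      unfold lam
      rw [if_neg (by omega), if_neg (by omega), if_neg (by omega), if_neg (by omega),
        if_neg (by omega), if_neg (by omega)]
      simp only [add_zero]
    rcases hcase with h3 | h3
    · -- `t = 3`
      right
      left
      subst h3
      refine ⟨hα₂ (by omega), ?_⟩
      have k2 := key 2
      unfold lam at k2
      rw [if_neg (by omega), if_neg (by omega), if_neg (by omega), if_neg (by omega),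
        if_neg (by omega), if_neg (by omega)] at k2
      simp only [add_zero] at k2
      have g1 : g 1 = 0 := by
        have h5 : (phi K (rho g q 2)).coeff 2 = 0 := by rw [← k2, map_zero, Polynomial.coeff_zero]
        rw [phi_two, Polynomial.coeff_add, Polynomial.coeff_C_mul, Polynomial.coeff_C_mul,
          Polynomial.coeff_X_pow_self, Polynomial.coeff_X_of_ne_one (by norm_num), mul_zero,
          zero_add, mul_one] at h5
        exact h5
      have hs' : s = 1 ∨ s = 2 := by omega
      rcases hs' with rfl | rfl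
      · have k4 := key 4
        have k5 := key 5
        unfold lam at k4 k5
        rw [if_neg (by omega), if_neg (by omega), if_neg (by omega), if_pos (by omega),
          if_neg (by omega), if_neg (by omega)] at k4
        rw [if_neg (by omega), if_neg (by omega), if_neg (by omega), if_neg (by omega),
          if_neg (by omega), if_neg (by omega)] at k5
        simp only [add_zero, zero_add] at k4 k5
        have g2 : g 2 = 0 := by
          have h5 := congrArg (fun f => (phi K f).coeff 0) k5.symm
          simp only [phi_five, map_zero, Polynomial.coeff_C_zero, Polynomial.coeff_zero] at h5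
          rw [neg_eq_zero] at h5
          exact (mul_eq_zero.1 h5).resolve_right hq
        rw [rho_four, g1, g2] at k4
        simp only [zero_mul, map_zero, add_zero] at k4
        exact (mul_eq_zero.1 k4).resolve_left (hCne h4c)
      · have k4 := key 4
        have k5 := key 5
        unfold lam at k4 k5
        rw [if_neg (by omega), if_neg (by omega), if_neg (by omega), if_neg (by omega),
          if_neg (by omega), if_neg (by omega)] at k4
        rw [if_neg (by omega), if_neg (by omega), if_neg (by omega), if_pos (by omega),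
          if_neg (by omega), if_neg (by omega)] at k5
        simp only [add_zero, zero_add] at k4 k5
        have g2 : g 2 = 0 := by
          have h5 : (phi K (rho g q 4)).coeff 1 = 0 := by
            rw [← k4, map_zero, Polynomial.coeff_zero]
          rw [phi_four, Polynomial.coeff_add, Polynomial.coeff_C_mul, Polynomial.coeff_X_one,
            Polynomial.coeff_C_of_ne_zero (by norm_num), zero_add, mul_one] at h5
          exact h5
        rw [rho_five, g2] at k5
        simp only [zero_mul, neg_zero, map_zero] at k5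
        exact (mul_eq_zero.1 k5).resolve_left (hCne h4c)
    · have hst' : (s = 2 ∧ t = 1) ∨ (s = 1 ∧ t = 2) := by omega
      rcases hst' with ⟨rfl, rfl⟩ | ⟨rfl, rfl⟩
      · -- `s = 2`, `t = 1`
        left
        have k1 := key 1
        have k2 := key 2
        have k4 := key 4
        unfold lam at k1 k2 k4
        rw [if_neg (by omega), if_pos (by omega), if_neg (by omega), if_neg (by omega),
          if_neg (by omega), if_neg (by omega)] at k1
        rw [if_neg (by omega), if_neg (by omega), if_pos (by omega), if_neg (by omega),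
          if_neg (by omega), if_neg (by omega)] at k2
        rw [if_neg (by omega), if_neg (by omega), if_neg (by omega), if_neg (by omega),
          if_pos (by omega), if_neg (by omega)] at k4
        simp only [add_zero, zero_add] at k1 k2 k4
        have p2 := congrArg (phi K) k2
        have p4 := congrArg (phi K) k4
        rw [map_pow, phi_two] at p2
        rw [map_mul, map_mul, phi_C, phi_four] at p4
        have c0 : (phi K α₁).coeff 0 = 0 := by
          have h5 := congrArg (fun f => Polynomial.coeff f 0) p2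
          simp only [sq, Polynomial.mul_coeff_zero, Polynomial.coeff_add,
            Polynomial.coeff_X_zero, mul_zero, add_zero] at h5
          exact mul_self_eq_zero.1 h5
        have h3g : 3 * g 0 * q ^ 2 = 0 := by
          have h5 := congrArg (fun f => Polynomial.coeff f 1) p2
          simp only [Polynomial.coeff_add, Polynomial.coeff_C_mul, Polynomial.coeff_X_one,
            Polynomial.coeff_X_pow, mul_one] at h5
          rw [sq, Polynomial.mul_coeff_one, c0] at h5
          simpa using h5.symm
        have g1 : g 1 = 0 := by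
          have h5 := congrArg (fun f => Polynomial.coeff f 0) p4
          simp only [Polynomial.mul_coeff_zero, Polynomial.coeff_add, Polynomial.coeff_C_zero,
            Polynomial.coeff_X_zero, mul_zero, add_zero, c0, zero_mul] at h5
          exact (mul_eq_zero.1 h5.symm).resolve_right (pow_ne_zero 2 hq)
        have h3 : 3 * g 0 * q = 0 := by
          have h5 : (3 * g 0 * q) * q = 0 := by linear_combination h3g
          exact (mul_eq_zero.1 h5).resolve_right hq
        refine ⟨?_, ?_⟩
        · rw [rho_two, h3g, g1, MvPolynomial.C_0, zero_mul, zero_mul, add_zero] at k2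
          exact pow_eq_zero_iff two_ne_zero |>.1 k2
        · rw [rho_one, h3, neg_zero, MvPolynomial.C_0, zero_mul] at k1
          exact (mul_eq_zero.1 k1).resolve_left (hCne h4)
      · -- `s = 1`, `t = 2`
        have k1 := key 1
        have k2 := key 2
        have k4 := key 4
        have k5 := key 5
        have k6 := key 6
        unfold lam at k1 k2 k4 k5 k6
        rw [if_neg (by omega), if_neg (by omega), if_neg (by omega), if_neg (by omega),
          if_neg (by omega), if_neg (by omega)] at k1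
        rw [if_neg (by omega), if_pos (by omega), if_neg (by omega), if_neg (by omega),
          if_neg (by omega), if_neg (by omega)] at k2
        rw [if_neg (by omega), if_neg (by omega), if_pos (by omega), if_neg (by omega),
          if_neg (by omega), if_neg (by omega)] at k4
        rw [if_neg (by omega), if_neg (by omega), if_neg (by omega), if_neg (by omega),
          if_pos (by omega), if_neg (by omega)] at k5
        rw [if_neg (by omega), if_neg (by omega), if_neg (by omega), if_neg (by omega),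
          if_neg (by omega), if_pos (by omega)] at k6
        simp only [add_zero, zero_add] at k1 k2 k4 k5 k6
        have h3 : 3 * g 0 * q = 0 := by
          have h5 := congrArg (fun f => (phi K f).coeff 2) k1.symm
          simp only [phi_one, map_zero, Polynomial.coeff_C_mul, Polynomial.coeff_X_pow, if_true,
            mul_one, Polynomial.coeff_zero] at h5
          exact neg_eq_zero.1 h5
        have h3g : 3 * g 0 * q ^ 2 = 0 := by linear_combination q * h3
        have g2 : g 2 = 0 := by
          by_contra hg2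
          have p4 := congrArg (phi K) k4
          rw [map_pow, phi_four] at p4
          have h5 := congrArg Polynomial.natDegree p4
          rw [Polynomial.natDegree_pow, add_comm, Polynomial.natDegree_linear hg2] at h5
          omega
        rw [rho_five, g2, zero_mul, neg_zero, MvPolynomial.C_0, zero_mul] at k5
        have h2c : -(2 * c) ≠ 0 := neg_ne_zero.2 (mul_ne_zero h2 hc)
        rcases mul_eq_zero.1 ((mul_eq_zero.1 k5).resolve_left (hCne h2c)) with h5 | h5
        · left
          refine ⟨h5, ?_⟩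
          have g1 : g 1 = 0 := by
            have p4 := congrArg (fun f => (phi K f).coeff 0) k4
            simp only [h5, phi_four, zero_pow two_ne_zero, map_zero, Polynomial.coeff_zero,
              Polynomial.coeff_add, Polynomial.coeff_C_zero, Polynomial.coeff_C_mul,
              Polynomial.coeff_X_zero, mul_zero, add_zero] at p4
            exact (mul_eq_zero.1 p4.symm).resolve_right (pow_ne_zero 2 hq)
          rw [rho_two, h3g, g1, MvPolynomial.C_0, zero_mul, zero_mul, add_zero] at k2
          exact (mul_eq_zero.1 k2).resolve_left (hCne h4)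
        · right
          right
          refine ⟨g2, ?_⟩
          rw [rho_six, h5, zero_pow two_ne_zero, mul_zero] at k6
          exact (map_eq_zero_iff _ (MvPolynomial.C_injective (Fin 2) K)).1 k6.symm

end Pool.Agent.Helper71.W4
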