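import Pool.Agent.Helper71.W4.Comp
import Pool.Agent.Helper79.TP.One2

/-!
# Descent to the finite field
-/

set_option autoImplicit false

namespace Pool.Agent.Helper71.W4

open Pool.Agent.Helper71.CP (ev ev_aeval ev_X)
open Pool.Agent.Helper79.TP (e2 jj)
open Pool.Agent.Helper9.TP (NoV)
open Polynomial (X C coeff)

variable {k K : Type} [Field k] [Field K] [Algebra k K]

theorem q_in [Finite k] {b q : K} (hb : b ≠ 0) {β : Polynomial k}
    (h : β.map (algebraMap k K) = C b * (X - C q) ^ 3) : ∃ κ : k, algebraMap k K κ = q := by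
  have e : C b * (X - C q) ^ 3 = C b * X ^ 3 + C (-(3 * b * q)) * X ^ 2 +
      C (3 * b * q ^ 2) * X ^ 1 + C (-(b * q ^ 3)) * X ^ 0 := by
    simp only [map_mul, map_neg, map_pow, map_ofNat]
    ring
  rw [e] at h
  have c3 : algebraMap k K (β.coeff 3) = b := by
    rw [← Polynomial.coeff_map, h]
    simp only [Polynomial.coeff_add, Polynomial.coeff_C_mul_X_pow]
    norm_num
  have c2 : algebraMap k K (β.coeff 2) = -(3 * b * q) := by
    rw [← Polynomial.coeff_map, h]
    simp only [Polynomial.coeff_add, Polynomial.coeff_C_mul_X_pow]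
    norm_num
  have c0 : algebraMap k K (β.coeff 0) = -(b * q ^ 3) := by
    rw [← Polynomial.coeff_map, h]
    simp only [Polynomial.coeff_add, Polynomial.coeff_C_mul_X_pow]
    norm_num
  by_cases h3 : (3 : k) = 0
  · have hp : Fact (Nat.Prime 3) := ⟨Nat.prime_three⟩
    have hc : CharP k 3 := by
      rw [CharP.charP_iff_prime_eq_zero Nat.prime_three]
      exact_mod_cast h3
    have hcK : CharP K 3 := charP_of_injective_algebraMap (algebraMap k K).injective 3
    obtain ⟨κ, hκ⟩ := surjective_frobenius k 3 (-(β.coeff 0 / β.coeff 3))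
    refine ⟨κ, ?_⟩
    have h4 : (algebraMap k K κ) ^ 3 = q ^ 3 := by
      have h5 : κ ^ 3 = -(β.coeff 0 / β.coeff 3) := hκ
      rw [← map_pow, h5, map_neg, map_div₀, c3, c0]
      field_simp
    have h5 : (algebraMap k K κ - q) ^ 3 = 0 := by
      rw [sub_pow_char, h4, sub_self]
    exact sub_eq_zero.1 (pow_eq_zero_iff three_ne_zero |>.1 h5)
  · have h3K : (3 : K) ≠ 0 := by
      intro h4
      apply h3
      have h5 : algebraMap k K 3 = 0 := by rw [map_ofNat, h4]
      exact (map_eq_zero_iff _ (algebraMap k K).injective).1 h5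
    refine ⟨-(β.coeff 2 / (3 * β.coeff 3)), ?_⟩
    rw [map_neg, map_div₀, map_mul, map_ofNat, c3, c2]
    field_simp

/-! ### Polynomials without the last variable -/

theorem noV_two {F : MvPolynomial (Fin 3) k}
    (h : ∀ {R : Type} [CommRing R] [Algebra k R] (x y z : R), ev F x y z = ev F x y 0) :
    NoV 2 F := by
  classical
  have h0 := h (MvPolynomial.X 0 : MvPolynomial (Fin 3) k) (MvPolynomial.X 1) (MvPolynomial.X 2)
  rw [Pool.Agent.Helper79.CP.ev_gen] at h0
  intro m hm
  by_contra hm0
  let i01 : Fin 2 → Fin 3 := ![0, 1]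
  have h1 : MvPolynomial.rename i01 (MvPolynomial.aeval
      (![MvPolynomial.X 0, MvPolynomial.X 1, 0] : Fin 3 → MvPolynomial (Fin 2) k) F) = F := by
    conv_rhs => rw [h0]
    have h2 : (MvPolynomial.rename i01 : MvPolynomial (Fin 2) k →ₐ[k] MvPolynomial (Fin 3) k).comp
        (MvPolynomial.aeval (![MvPolynomial.X 0, MvPolynomial.X 1, 0] :
          Fin 3 → MvPolynomial (Fin 2) k)) =
        MvPolynomial.aeval (![MvPolynomial.X 0, MvPolynomial.X 1, 0] :
          Fin 3 → MvPolynomial (Fin 3) k) := by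
      apply MvPolynomial.algHom_ext
      intro i
      rw [AlgHom.comp_apply, MvPolynomial.aeval_X, MvPolynomial.aeval_X]
      fin_cases i
      · exact MvPolynomial.rename_X _ _
      · exact MvPolynomial.rename_X _ _
      · exact map_zero _
    exact DFunLike.congr_fun h2 F
  rw [← h1] at hm
  have h3 : (2 : Fin 3) ∈ (MvPolynomial.rename i01 (MvPolynomial.aeval
      (![MvPolynomial.X 0, MvPolynomial.X 1, 0] : Fin 3 → MvPolynomial (Fin 2) k) F)).vars :=
    (MvPolynomial.mem_vars 2).2 ⟨m, hm, Finsupp.mem_support_iff.2 hm0⟩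
  have h4 := MvPolynomial.vars_rename i01 _ h3
  rw [Finset.mem_image] at h4
  obtain ⟨i, -, hi⟩ := h4
  fin_cases i <;> exact absurd hi (by decide)

theorem ZF.of_map {A : MvPolynomial (Fin 2) k}
    (h : ZF (MvPolynomial.map (algebraMap k K) A)) : ZF A := by
  apply MvPolynomial.map_injective _ (algebraMap k K).injective
  unfold ZF at h
  conv_rhs => rw [← h]
  have h1 : (MvPolynomial.map (algebraMap k K)).comp (MvPolynomial.aeval
      (![MvPolynomial.X 0, 0] : Fin 2 → MvPolynomial (Fin 2) k)).toRingHom =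
      (MvPolynomial.aeval (![MvPolynomial.X 0, 0] : Fin 2 → MvPolynomial (Fin 2) K)).toRingHom.comp
      (MvPolynomial.map (algebraMap k K)) := by
    apply MvPolynomial.ringHom_ext
    · intro c
      change MvPolynomial.map (algebraMap k K) (MvPolynomial.aeval _ (algebraMap k _ c)) =
        MvPolynomial.aeval _ (MvPolynomial.map (algebraMap k K) (MvPolynomial.C c))
      rw [AlgHom.commutes, MvPolynomial.map_C, MvPolynomial.algHom_C]
      exact MvPolynomial.map_C _ _
    · intro i
      change MvPolynomial.map (algebraMap k K) (MvPolynomial.aeval _ (MvPolynomial.X i)) =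
        MvPolynomial.aeval _ (MvPolynomial.map (algebraMap k K) (MvPolynomial.X i))
      rw [MvPolynomial.aeval_X, MvPolynomial.map_X, MvPolynomial.aeval_X]
      fin_cases i
      · exact MvPolynomial.map_X _ _
      · exact map_zero _
  exact RingHom.congr_fun h1 A

theorem ZF.e2 {A : MvPolynomial (Fin 2) k} (h : ZF A) {R : Type} [CommRing R] [Algebra k R]
    (x z : R) : e2 A x z = e2 A x 0 := by
  have h1 : (MvPolynomial.aeval ![x, z] : MvPolynomial (Fin 2) k →ₐ[k] R).comp
      (MvPolynomial.aeval (![MvPolynomial.X 0, 0] : Fin 2 → MvPolynomial (Fin 2) k)) =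
      MvPolynomial.aeval ![x, 0] := by
    apply MvPolynomial.algHom_ext
    intro i
    rw [AlgHom.comp_apply, MvPolynomial.aeval_X, MvPolynomial.aeval_X]
    fin_cases i
    · exact MvPolynomial.aeval_X _ _
    · exact map_zero _
  have h3 := DFunLike.congr_fun h1 A
  rw [AlgHom.comp_apply, h] at h3
  exact h3

/-- the generic point -/
theorem e2_gen (A : MvPolynomial (Fin 2) K) :
    Pool.Agent.Helper79.TP.e2 A (C (MvPolynomial.X 0 : MvPolynomial (Fin 2) K))
      (C (MvPolynomial.X 1 : MvPolynomial (Fin 2) K)) = C A := by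
  have h1 : (MvPolynomial.aeval ![(C (MvPolynomial.X 0 : MvPolynomial (Fin 2) K)),
      C (MvPolynomial.X 1 : MvPolynomial (Fin 2) K)]) =
      (IsScalarTower.toAlgHom K (MvPolynomial (Fin 2) K)
        (Polynomial (MvPolynomial (Fin 2) K))) := by
    apply MvPolynomial.algHom_ext
    intro i
    rw [MvPolynomial.aeval_X]
    fin_cases i <;> rfl
  exact DFunLike.congr_fun h1 A

end Pool.Agent.Helper71.W4
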