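import Pool.Agent.Helper71.W4.Stage
import Pool.Agent.Helper79.TP.Two2

/-!
# (W4) Fano trinomials with the weights 2, 3, 1; 1
-/

set_option autoImplicit false

namespace Pool.Agent.Helper71.W4

open Pool.Agent.Helper29.CQ Pool.Agent.Helper65.CC Pool.Agent.Helper87.CC
  Pool.Agent.Helper65.CC.KFn
open Pool.Agent.Helper71.CP (ev ev_aeval ev_X ev_mul ev_C ev_add ev_pow wt CW al)
open Pool.Agent.Helper79.TP (jj e2 ev_jj e2_map Concl concl_chg exists_dec6 exists_chg6 exists_sq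
  red_A coeff_x3 wh_subst)
open Pool.Agent.Helper79.CP (weight_eq ev_gen)
open Pool.Agent.Helper9.TP (NoV CstA ChgW TS)
open MvPolynomial (IsWeightedHomogeneous X C rename aeval)

variable {k K : Type} [Field k] [Field K] [Algebra k K]
  {G : ∀ (R : Type) [CommRing R] [Algebra K R], Prop}

/-! ### Auxiliary -/

theorem ev_dec (a : k) (A B : MvPolynomial (Fin 2) k) {R : Type} [CommRing R] [Algebra k R]
    (x y z : R) : ev (C a * X 1 ^ 2 + rename jj A * X 1 + rename jj B) x y z =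
      algebraMap k R a * y ^ 2 + e2 A x z * y + e2 B x z := by
  rw [ev_add, ev_add, ev_mul, ev_mul, ev_C, ev_pow, ev_X, ev_jj, ev_jj]
  rfl

/-- `F₀ = a₀ y ^ 2 + b₀ x ^ 3` -/
theorem concl_core [IsAlgClosed K] [Finite k] (h2 : (2 : K) ≠ 0) (hG : GOps K G) (hW : CstA G)
    {s t : ℕ} (hs : 0 < s) (ht : 0 < t) (hst : s ≠ t) (hle : s + t ≤ 6)
    {a₀ b₀ : k} (ha₀ : a₀ ≠ 0) (hb₀ : b₀ ≠ 0) {c : K} (hc : c ≠ 0)
    {F₀ F₁ F₂ : MvPolynomial (Fin 3) k}
    (h₀ : F₀ = C a₀ * X 1 ^ 2 + rename jj (0 : MvPolynomial (Fin 2) k) * X 1 +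
      rename jj (C b₀ * X 0 ^ 3))
    (h₁ : IsWeightedHomogeneous ![2, 3, 1] F₁ (6 - t))
    (h₂ : IsWeightedHomogeneous ![2, 3, 1] F₂ (6 - (s + t))) (n₁ : F₁ ≠ 0) (n₂ : F₂ ≠ 0) :
    Concl G ![2, 3, 1] 2 F₀ F₁ F₂ s t c := by
  obtain ⟨A₁, B₁, wA₁, zA₁, wB₁, zc₁, e₁⟩ := exists_dec6 (by omega) h₁
  obtain ⟨A₂, B₂, wA₂, zA₂, wB₂, zc₂, e₂⟩ := exists_dec6 (by omega) h₂
  rw [zc₁ (by omega), MvPolynomial.C_0, zero_mul, zero_add] at e₁
  rw [zc₂ (by omega), MvPolynomial.C_0, zero_mul, zero_add] at e₂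
  have hX : IsWeightedHomogeneous ![2, 1] (X 0 ^ 3 : MvPolynomial (Fin 2) k) 6 :=
    (MvPolynomial.isWeightedHomogeneous_X k ![2, 1] 0).pow 3
  obtain ⟨H, hH, hev, hTS⟩ := exists_sq (G := G) h2 hle ha₀
    (MvPolynomial.isWeightedHomogeneous_zero _ _ _) (hX.C_mul b₀) wA₁ zA₁ wB₁ wA₂ zA₂ wB₂
    h₀ e₁ e₂ c
  have hz : ∀ A B : MvPolynomial (Fin 2) k, A = 0 ∧ B = 0 →
      rename jj A * X 1 + rename jj B = 0 := by
    rintro _ _ ⟨rfl, rfl⟩
    rw [map_zero, zero_mul, add_zero]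
  have e0 : ∀ (R : Type) [CommRing R] [Algebra K R] (x z : R),
      e2 (MvPolynomial.map (algebraMap k K) (0 : MvPolynomial (Fin 2) k)) x z = 0 := by
    intro R _ _ x z
    rw [map_zero]
    exact map_zero _
  have eb : ∀ (R : Type) [CommRing R] [Algebra K R] (x z : R), e2
      (MvPolynomial.map (algebraMap k K) (C b₀ * X 0 ^ 3)) x z =
      algebraMap K R (algebraMap k K b₀) * x ^ 3 := by
    intro R _ _ x z
    unfold Pool.Agent.Helper79.TP.e2
    rw [map_mul, map_pow, MvPolynomial.map_C, MvPolynomial.map_X, map_mul, map_pow,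
      MvPolynomial.aeval_C, MvPolynomial.aeval_X]
    rfl
  rcases core h2 hG hW hs ht hst hle ha₀ hb₀ hc A₁ B₁ A₂ B₂ (fun h => zA₂ (by omega))
    (fun h => n₁ (e₁.trans (hz _ _ h))) (fun h => n₂ (e₂.trans (hz _ _ h))) H hH
    (fun R _ _ z x r => by
      rw [hev, e0, eb, zero_sub]) with h | ⟨z1, z2, z3, z4⟩
  · exact Or.inl (hTS h)
  · right
    let τ : ChgW ![2, 3, 1] k :=
      { fwd := X
        bwd := X
        hfwd := fun i => MvPolynomial.isWeightedHomogeneous_X k ![2, 3, 1] i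
        hbwd := fun i => MvPolynomial.isWeightedHomogeneous_X k ![2, 3, 1] i
        fwd_bwd := fun i => MvPolynomial.aeval_X _ _
        bwd_fwd := fun i => MvPolynomial.aeval_X _ _ }
    have hid : ∀ F : MvPolynomial (Fin 3) k, aeval τ.fwd F = F := fun F =>
      MvPolynomial.aeval_X_left_apply F
    have hC : ∀ (a : k) (A B : MvPolynomial (Fin 2) k), ZF A → ZF B →
        NoV 2 (C a * X 1 ^ 2 + rename jj A * X 1 + rename jj B) := by
      intro a A B hA hB
      refine noV_two fun {R} _ _ x y z => ?_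
      rw [ev_dec, ev_dec, hA.e2, hB.e2]
    have hl : ∀ (A B : MvPolynomial (Fin 2) k), rename jj A * X 1 + rename jj B =
        C (0 : k) * X 1 ^ 2 + rename jj A * X 1 + rename jj B := by
      intro A B
      rw [MvPolynomial.C_0, zero_mul, zero_add]
    refine ⟨τ, ?_, ?_, ?_⟩
    · rw [hid, h₀]
      exact hC _ _ _ ZF.zero ((ZF.C _).mul (ZF.x 3))
    · rw [hid, e₁, hl]
      exact hC _ _ _ z1 z2
    · rw [hid, e₂, hl]
      exact hC _ _ _ z3 z4

theorem sub_ne {w : Fin 3 → ℕ} {F : MvPolynomial (Fin 3) k} (hF : F ≠ 0) (τ : ChgW w k) :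
    aeval τ.fwd F ≠ 0 := by
  intro h
  apply hF
  have h1 : (aeval τ.bwd : MvPolynomial (Fin 3) k →ₐ[k] MvPolynomial (Fin 3) k).comp
      (aeval τ.fwd) = AlgHom.id k _ := by
    apply MvPolynomial.algHom_ext
    intro i
    rw [AlgHom.comp_apply, MvPolynomial.aeval_X, τ.bwd_fwd]
    rfl
  have h3 := DFunLike.congr_fun h1 F
  rw [AlgHom.comp_apply, h, map_zero] at h3
  exact h3.symm

/-- `F₀ = a₀ y ^ 2 + B₀` -/
theorem concl_stage [IsAlgClosed K] [Finite k] (h2 : (2 : K) ≠ 0) (hG : GOps K G) (hW : CstA G)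
    {s t : ℕ} (hs : 0 < s) (ht : 0 < t) (hst : s ≠ t) (hle : s + t ≤ 6)
    {a₀ : k} (ha₀ : a₀ ≠ 0) {B₀ : MvPolynomial (Fin 2) k}
    (hB₀ : IsWeightedHomogeneous ![2, 1] B₀ 6) (hb : e2 B₀ (1 : k) 0 ≠ 0) {c : K} (hc : c ≠ 0)
    {F₀ F₁ F₂ : MvPolynomial (Fin 3) k}
    (h₀ : F₀ = C a₀ * X 1 ^ 2 + rename jj (0 : MvPolynomial (Fin 2) k) * X 1 + rename jj B₀)
    (h₁ : IsWeightedHomogeneous ![2, 3, 1] F₁ (6 - t))
    (h₂ : IsWeightedHomogeneous ![2, 3, 1] F₂ (6 - (s + t))) (n₁ : F₁ ≠ 0) (n₂ : F₂ ≠ 0) :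
    Concl G ![2, 3, 1] 2 F₀ F₁ F₂ s t c := by
  obtain ⟨A₁, B₁, wA₁, zA₁, wB₁, zc₁, e₁⟩ := exists_dec6 (by omega) h₁
  obtain ⟨A₂, B₂, wA₂, zA₂, wB₂, zc₂, e₂⟩ := exists_dec6 (by omega) h₂
  rw [zc₁ (by omega), MvPolynomial.C_0, zero_mul, zero_add] at e₁
  rw [zc₂ (by omega), MvPolynomial.C_0, zero_mul, zero_add] at e₂
  obtain ⟨H, hH, hev, hTS⟩ := exists_sq (G := G) h2 hle ha₀
    (MvPolynomial.isWeightedHomogeneous_zero _ _ _) hB₀ wA₁ zA₁ wB₁ wA₂ zA₂ wB₂ h₀ e₁ e₂ c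
  have e0 : ∀ (R : Type) [CommRing R] [Algebra K R] (x z : R),
      e2 (MvPolynomial.map (algebraMap k K) (0 : MvPolynomial (Fin 2) k)) x z = 0 := by
    intro R _ _ x z
    rw [map_zero]
    exact map_zero _
  have hst0 : s + t ≠ 0 := by omega
  have hev0 : ∀ (R : Type) [CommRing R] [Algebra K R] (z x : R), ev H z x 0 =
      -(4 * algebraMap K R (algebraMap k K a₀)) *
        e2 (MvPolynomial.map (algebraMap k K) B₀) x z := by
    intro R _ _ z x
    rw [hev, e0, zero_pow ht.ne', zero_pow hst0]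
    ring
  rcases stage h2 hG hW ha₀ B₀ hB₀ hb H hH hev0 with h | ⟨κ, q, g, hg, h⟩
  · exact Or.inl (hTS h)
  -- the shape of `B₀`
  have h4K : (4 : K) * algebraMap k K a₀ ≠ 0 := by
    have : (4 : K) = 2 * 2 := by norm_num
    rw [this]
    exact mul_ne_zero (mul_ne_zero h2 h2) fun h =>
      ha₀ ((map_eq_zero_iff _ (algebraMap k K).injective).1 h)
  have hBK : ∀ (R : Type) [CommRing R] [Algebra K R] (x z : R),
      e2 (MvPolynomial.map (algebraMap k K) B₀)
        (x + algebraMap K R (algebraMap k K κ) * z ^ 2) z =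
      algebraMap K R (-(g 0 / (4 * algebraMap k K a₀))) * x ^ 3 := by
    intro R _ _ x z
    have k1 := hev0 R z (x + algebraMap K R (algebraMap k K κ) * z ^ 2)
    rw [h] at k1
    have k3 : gam g (x + algebraMap K R (algebraMap k K κ) * z ^ 2 -
        algebraMap K R (algebraMap k K κ) * z ^ 2 - algebraMap K R q * (z * 0)) (0 : R) =
        algebraMap K R (g 0) * x ^ 3 := by
      simp only [gam]
      ring
    rw [k3] at k1
    have hi : algebraMap K R (4 * algebraMap k K a₀)⁻¹ *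
        (4 * algebraMap K R (algebraMap k K a₀)) = 1 := by
      rw [← map_ofNat (algebraMap K R) 4, ← map_mul, ← map_mul, inv_mul_cancel₀ h4K, map_one]
    rw [map_neg, div_eq_mul_inv, map_mul]
    linear_combination algebraMap K R (4 * algebraMap k K a₀)⁻¹ * k1 -
      e2 (MvPolynomial.map (algebraMap k K) B₀)
        (x + algebraMap K R (algebraMap k K κ) * z ^ 2) z * hi
  have hb1 : algebraMap k K (e2 B₀ (1 : k) 0) = -(g 0 / (4 * algebraMap k K a₀)) := by
    have k1 := hBK K 1 0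
    have k3 : e2 (MvPolynomial.map (algebraMap k K) B₀) (1 : K) 0 =
        algebraMap k K (e2 B₀ (1 : k) 0) := by
      unfold Pool.Agent.Helper79.TP.e2
      rw [MvPolynomial.aeval_map_algebraMap]
      have h3 : (![1, 0] : Fin 2 → K) = algebraMap k K ∘ ![1, 0] := by
        funext i
        fin_cases i
        · exact (map_one _).symm
        · exact (map_zero _).symm
      rw [h3]
      exact MvPolynomial.aeval_algebraMap_apply _ _ _
    rw [← k3]
    simpa using k1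
  have hBk : ∀ (R : Type) [CommRing R] [Algebra k R] (x z : R),
      e2 B₀ (x + algebraMap k R κ * z ^ 2) z = algebraMap k R (e2 B₀ (1 : k) 0) * x ^ 3 := by
    let M := MvPolynomial (Fin 2) k
    let MK := MvPolynomial (Fin 2) K
    have k1 : e2 B₀ (X 0 + algebraMap k M κ * X 1 ^ 2 : M) (X 1) =
        algebraMap k M (e2 B₀ (1 : k) 0) * X 0 ^ 3 := by
      apply MvPolynomial.map_injective _ (algebraMap k K).injective
      have k3 := hBK MK (X 0) (X 1)
      rw [← hb1] at k3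
      rw [map_mul, map_pow, MvPolynomial.map_X, MvPolynomial.algebraMap_eq, MvPolynomial.map_C]
      refine Eq.trans ?_ k3
      unfold Pool.Agent.Helper79.TP.e2
      have k5 : (MvPolynomial.map (algebraMap k K) : M →+* MK).comp
          (MvPolynomial.aeval ![(X 0 + algebraMap k M κ * X 1 ^ 2 : M), X 1] :
            M →ₐ[k] M).toRingHom =
          (MvPolynomial.aeval ![(X 0 + algebraMap K MK (algebraMap k K κ) * X 1 ^ 2 : MK), X 1] :
            MK →ₐ[K] MK).toRingHom.comp (MvPolynomial.map (algebraMap k K)) := by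
        apply MvPolynomial.ringHom_ext
        · intro d
          change MvPolynomial.map (algebraMap k K) (MvPolynomial.aeval _ (algebraMap k M d)) =
            MvPolynomial.aeval _ (MvPolynomial.map (algebraMap k K) (MvPolynomial.C d))
          rw [AlgHom.commutes, MvPolynomial.map_C, MvPolynomial.algHom_C]
          exact MvPolynomial.map_C _ _
        · intro i
          change MvPolynomial.map (algebraMap k K) (MvPolynomial.aeval _ (MvPolynomial.X i)) =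
            MvPolynomial.aeval _ (MvPolynomial.map (algebraMap k K) (MvPolynomial.X i))
          rw [MvPolynomial.aeval_X, MvPolynomial.map_X, MvPolynomial.aeval_X]
          fin_cases i
          · change MvPolynomial.map (algebraMap k K) (X 0 + algebraMap k M κ * X 1 ^ 2) =
              X 0 + algebraMap K MK (algebraMap k K κ) * X 1 ^ 2
            rw [map_add, map_mul, map_pow, MvPolynomial.map_X, MvPolynomial.map_X,
              MvPolynomial.algebraMap_eq, MvPolynomial.map_C]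
            rfl
          · exact MvPolynomial.map_X _ _
      exact RingHom.congr_fun k5 B₀
    intro R _ _ x z
    have k3 := congrArg (MvPolynomial.aeval ![x, z] : M →ₐ[k] R) k1
    rw [e2_map, map_mul, map_pow, map_add, map_mul, map_pow, AlgHom.commutes, AlgHom.commutes,
      MvPolynomial.aeval_X, MvPolynomial.aeval_X] at k3
    exact k3
  -- the change of coordinates
  obtain ⟨τ, hτ⟩ := exists_chg6 (0 : k) κ 0 (MvPolynomial.isWeightedHomogeneous_zero k ![2, 1] 3)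
  have hτ' : ∀ (F : MvPolynomial (Fin 3) k) (R : Type) [CommRing R] [Algebra k R] (x y z : R),
      ev (aeval τ.fwd F) x y z = ev F (x + algebraMap k R κ * z ^ 2) y z := by
    intro F R _ _ x y z
    rw [hτ, map_zero, zero_mul, sub_zero]
  refine concl_chg τ (concl_core h2 hG hW hs ht hst hle ha₀ hb hc ?_
    (wh_subst h₁ τ.hfwd) (wh_subst h₂ τ.hfwd) (sub_ne n₁ τ) (sub_ne n₂ τ))
  have h5 := hτ' F₀ (MvPolynomial (Fin 3) k) (X 0) (X 1) (X 2)
  rw [ev_gen] at h5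
  have h6 : ev (C a₀ * X 1 ^ 2 + rename jj (0 : MvPolynomial (Fin 2) k) * X 1 +
      rename jj (C (e2 B₀ (1 : k) 0) * X 0 ^ 3)) (X 0 : MvPolynomial (Fin 3) k) (X 1) (X 2) =
      C a₀ * X 1 ^ 2 + rename jj (0 : MvPolynomial (Fin 2) k) * X 1 +
      rename jj (C (e2 B₀ (1 : k) 0) * X 0 ^ 3) := ev_gen _
  have h7 : ∀ x z : MvPolynomial (Fin 3) k, e2 (0 : MvPolynomial (Fin 2) k) x z = 0 := fun x z =>
    map_zero _
  have h8 : ∀ x z : MvPolynomial (Fin 3) k, e2 (C (e2 B₀ (1 : k) 0) * X 0 ^ 3) x z =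
      algebraMap k _ (e2 B₀ (1 : k) 0) * x ^ 3 := by
    intro x z
    unfold Pool.Agent.Helper79.TP.e2
    rw [map_mul, map_pow, MvPolynomial.aeval_C, MvPolynomial.aeval_X]
    rfl
  rw [h5, ← h6, ev_dec, h₀, ev_dec, hBk, h7, h7, h8]

/-- **(W4)** -/
theorem mem_two [IsAlgClosed K] (h2 : (2 : K) ≠ 0) (hG : GOps K G) (hW : CstA G) {k : Type}
    [Field k] [Finite k] [Algebra k K] (F₀ F₁ F₂ : MvPolynomial (Fin 3) k) (s t : ℕ) (hs : 0 < s)
    (ht : 0 < t) (hst : s ≠ t) (hle : s + t ≤ 6) (h₀ : IsWeightedHomogeneous ![2, 3, 1] F₀ 6)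
    (h₁ : IsWeightedHomogeneous ![2, 3, 1] F₁ (6 - t))
    (h₂ : IsWeightedHomogeneous ![2, 3, 1] F₂ (6 - (s + t)))
    (hx : F₀.coeff (Finsupp.single 0 3) ≠ 0) (hy : F₀.coeff (Finsupp.single 1 2) ≠ 0)
    (n₁ : F₁ ≠ 0) (n₂ : F₂ ≠ 0) (c : K) (hc : c ≠ 0) :
    (TS (MvPolynomial.map (algebraMap k K) F₀) (MvPolynomial.map (algebraMap k K) F₁)
      (MvPolynomial.map (algebraMap k K) F₂) s t c).Mem G ∨
    ∃ τ : ChgW ![2, 3, 1] k, NoV 2 (aeval τ.fwd F₀) ∧ NoV 2 (aeval τ.fwd F₁) ∧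
      NoV 2 (aeval τ.fwd F₂) := by
  have h2k : (2 : k) ≠ 0 := by
    intro h
    apply h2
    rw [← map_ofNat (algebraMap k K) 2, h, map_zero]
  obtain ⟨τ, B, hB, e, cx, -⟩ := red_A h2k h₀ hy
  refine concl_chg (G := G) τ (concl_stage h2 hG hW hs ht hst hle hy hB ?_ hc ?_
    (wh_subst h₁ τ.hfwd) (wh_subst h₂ τ.hfwd) (sub_ne n₁ τ) (sub_ne n₂ τ))
  · have w₀ := wh_subst h₀ τ.hfwd
    rw [coeff_x3 w₀, e, ev_add, ev_mul, ev_pow, ev_X, ev_jj] at cx
    have h3 : ev (C (F₀.coeff (Finsupp.single 1 2)) : MvPolynomial (Fin 3) k) (1 : k) 0 0 *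
        (![1, 0, 0] : Fin 3 → k) 1 ^ 2 = 0 := by
      change _ * (0 : k) ^ 2 = 0
      ring
    rw [h3, zero_add] at cx
    rw [cx]
    exact hx
  · rw [map_zero, zero_mul, add_zero]
    exact e

end Pool.Agent.Helper71.W4
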