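import Pool.Agent.Helper71.W4.Shape

/-!
# The cone over a nodal cubic
-/

set_option autoImplicit false

namespace Pool.Agent.Helper71.W4

open Pool.Agent.Helper29.CQ Pool.Agent.Helper65.CC Pool.Agent.Helper87.CC
  Pool.Agent.Helper65.CC.KFn
open Pool.Agent.Helper71.CP Pool.Agent.Helper71.PN
open Pool.Agent.Helper49.CP (NI mem_NI mem_X3 hinf)
open MvPolynomial (IsWeightedHomogeneous)
open Polynomial (X C)

variable {K : Type} [Field K] {G : ∀ (R : Type) [CommRing R] [Algebra K R], Prop}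

theorem hinf_gam (g : Fin 4 → K) {R : Type} [CommRing R] [Algebra K R] (y z : R) :
    hinf (g 0) (g 1) (g 2) (g 3) z y = gam g y z := by
  rw [hinf, gam]
  ring

/-- **the nodal case** -/
theorem nodal [IsAlgClosed K] (hG : GOps K G) (H : MvPolynomial (Fin 3) K) (q₀ q₁ : K)
    (g : Fin 4 → K) (hg2 : g 2 = 0) (hg3 : g 3 = 0)
    (h : ∀ (R : Type) [CommRing R] [Algebra K R] (x y z : R),
      ev H x y z = gam g (y - algebraMap K R q₀ * x ^ 2 - algebraMap K R q₁ * (x * z)) z) :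
    (CW H).Mem G := by
  have h1 : (BC (C (g 0) * X ^ 3 + C (g 1) * X ^ 2 + C (g 2) * X + C (g 3))).Mem G := by
    have e : (C (g 0) * X ^ 3 + C (g 1) * X ^ 2 + C (g 2) * X + C (g 3) : Polynomial K) =
        X ^ 2 * (C (g 0) * X + C (g 1)) := by
      rw [hg2, hg3, Polynomial.C_0]
      ring
    rw [e]
    refine BC.sq_mul hG _ Polynomial.X_ne_zero (BC.deg_two hG _ ?_)
    exact (Polynomial.natDegree_linear_le).trans one_le_two
  refine Mem.of_iso ?_ (Mem.line hG.toKOps (mem_NI hG.toKOps (g 0) (g 1) (g 2) (g 3) h1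
    (mem_X3 hG _)))
  exact
    { hom := fun {R} _ _ x => (⟨(x.1.2.2.1, x.1.2.1 - algebraMap K R q₀ * x.1.1 ^ 2 -
          algebraMap K R q₁ * (x.1.1 * x.1.2.2.1), x.1.2.2.2), by
          have k1 : x.1.2.2.2 ^ 2 - ev H x.1.1 x.1.2.1 x.1.2.2.1 = 0 := x.2
          rw [h] at k1
          change x.1.2.2.2 ^ 2 - hinf (g 0) (g 1) (g 2) (g 3) x.1.2.2.1 _ = 0
          rw [hinf_gam]
          exact k1⟩, x.1.1)
      inv := fun {R} _ _ y => ⟨(y.2, y.1.1.2.1 + algebraMap K R q₀ * y.2 ^ 2 +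
          algebraMap K R q₁ * (y.2 * y.1.1.1), y.1.1.1, y.1.1.2.2), by
          have k1 : y.1.1.2.2 ^ 2 - hinf (g 0) (g 1) (g 2) (g 3) y.1.1.1 y.1.1.2.1 = 0 := y.1.2
          rw [hinf_gam] at k1
          change y.1.1.2.2 ^ 2 - ev H y.2 (y.1.1.2.1 + algebraMap K R q₀ * y.2 ^ 2 +
            algebraMap K R q₁ * (y.2 * y.1.1.1)) y.1.1.1 = 0
          rw [h]
          have k2 : y.1.1.2.1 + algebraMap K R q₀ * y.2 ^ 2 +
            algebraMap K R q₁ * (y.2 * y.1.1.1) - algebraMap K R q₀ * y.2 ^ 2 -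
            algebraMap K R q₁ * (y.2 * y.1.1.1) = y.1.1.2.1 := by ring
          rw [k2]
          exact k1⟩
      inv_hom := fun {R} _ _ x => by
          apply Subtype.ext
          refine Prod.ext rfl (Prod.ext ?_ rfl)
          change x.1.2.1 - algebraMap K R q₀ * x.1.1 ^ 2 -
            algebraMap K R q₁ * (x.1.1 * x.1.2.2.1) + algebraMap K R q₀ * x.1.1 ^ 2 +
            algebraMap K R q₁ * (x.1.1 * x.1.2.2.1) = x.1.2.1
          ring
      hom_inv := fun {R} _ _ y => by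
          refine Prod.ext (Subtype.ext (Prod.ext rfl (Prod.ext ?_ rfl))) rfl
          change y.1.1.2.1 + algebraMap K R q₀ * y.2 ^ 2 +
            algebraMap K R q₁ * (y.2 * y.1.1.1) - algebraMap K R q₀ * y.2 ^ 2 -
            algebraMap K R q₁ * (y.2 * y.1.1.1) = y.1.1.2.1
          ring
      nat := fun {R S} _ _ _ _ f x => by
          refine Prod.ext (Subtype.ext (Prod.ext rfl (Prod.ext ?_ rfl))) rfl
          change f (x.1.2.1 - algebraMap K R q₀ * x.1.1 ^ 2 -
            algebraMap K R q₁ * (x.1.1 * x.1.2.2.1)) = f x.1.2.1 -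
            algebraMap K S q₀ * (f x.1.1) ^ 2 - algebraMap K S q₁ * (f x.1.1 * f x.1.2.2.1)
          rw [map_sub, map_sub, map_mul, map_mul, map_mul, map_pow, AlgHom.commutes,
            AlgHom.commutes] }

end Pool.Agent.Helper71.W4
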