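import Pool.Agent.Helper79.CP.Geo6
import Pool.Agent.Helper9.TP.Defs3

/-!
# Double covers of the weighted plane with the weights 1, 2, 1 whose cone has a vertex
-/

set_option autoImplicit false

namespace Pool.Agent.Helper71.W4

open Pool.Agent.Helper29.CQ Pool.Agent.Helper65.CC Pool.Agent.Helper87.CC
  Pool.Agent.Helper65.CC.KFn
open Pool.Agent.Helper71.CP
open Pool.Agent.Helper79.CP (ev_monomial ev_zero weight_eq noX_of_ev cone6_trx hom_sub ev_gen)
open MvPolynomial (IsWeightedHomogeneous)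

variable {K : Type} [Field K] {G : ∀ (R : Type) [CommRing R] [Algebra K R], Prop}

/-! ### Nilpotent functions -/

theorem cls_pow (hG : KOps K G) {F : KFn K} (u v : Coord F) (n : ℕ) (hn : n ≠ 0)
    (h : ∀ {R : Type} [CommRing R] [Algebra K R] (x : F.obj R), v.val x = u.val x ^ n)
    (hu : (F.cls u).Mem G) : (F.cls v).Mem G := by
  let u' : Coord (F.cls v) := ⟨fun x => u.val x.1, fun f x => u.nat f x.1⟩
  refine Mem.glue hG u' (Mem.of_trivial hG fun A _ _ x => ?_) (Mem.of_iso ?_ hu)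
  · have h1 : v.val x.1.1 = 0 := x.1.2
    have h2 : IsUnit (u.val x.1.1) := x.2
    rw [h] at h1
    have h3 := h2.pow n
    rw [h1] at h3
    exact subsingleton_of_zero_eq_one (isUnit_zero_iff.1 h3)
  · exact
      { hom := fun {R} _ _ x => ⟨x.1.1, x.2⟩
        inv := fun {R} _ _ y => ⟨⟨y.1, by
          change v.val y.1 = 0
          have h1 : u.val y.1 = 0 := y.2
          rw [h, h1, zero_pow hn]⟩, y.2⟩
        inv_hom := fun _ => rfl
        hom_inv := fun _ => rfl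
        nat := fun _ _ => rfl }

theorem cls_root (hG : KOps K G) {F : KFn K} [hF : Rp F] (u v : Coord F) (n : ℕ) (hn : n ≠ 0)
    (h : ∀ {R : Type} [CommRing R] [Algebra K R] (x : F.obj R), v.val x = u.val x ^ n)
    (hv : (F.cls v).Mem G) : (F.cls u).Mem G := by
  let u' : Coord (F.cls v) := ⟨fun x => u.val x.1, fun f x => u.nat f x.1⟩
  have hO : ((F.cls v).opn u').Mem G := Mem.of_trivial hG fun A _ _ x => by
    have h1 : v.val x.1.1 = 0 := x.1.2
    have h2 : IsUnit (u.val x.1.1) := x.2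
    rw [h] at h1
    have h3 := h2.pow n
    rw [h1] at h3
    exact subsingleton_of_zero_eq_one (isUnit_zero_iff.1 h3)
  have e : Iso (F.cls u) ((F.cls v).cls u') :=
    { hom := fun {R} _ _ y => ⟨⟨y.1, by
          change v.val y.1 = 0
          have h1 : u.val y.1 = 0 := y.2
          rw [h, h1, zero_pow hn]⟩, y.2⟩
      inv := fun {R} _ _ x => ⟨x.1.1, x.2⟩
      inv_hom := fun _ => rfl
      hom_inv := fun _ => rfl
      nat := fun _ _ => rfl }
  refine Mem.of_iso e ?_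
  obtain ⟨A, _, _, a, hA, ha⟩ := hF.out
  obtain ⟨b, hb⟩ := ha.cls v
  obtain ⟨c, hc⟩ := hb.cls u'
  obtain ⟨d, hd⟩ := hb.opn u'
  have hAv := ft_quot hA (Ideal.span {v.val a})
  exact Mem.of_rep hG hc (hG.closed _ (u'.val b) (hv _ b hAv hb) (hO _ d (ft_away hAv _) hd))

/-! ### Forms -/

theorem exists_f1 {E : MvPolynomial (Fin 3) K} (hE : IsWeightedHomogeneous wt E 1) :
    ∃ a b : K, ∀ {R : Type} [CommRing R] [Algebra K R] (x y z : R),
      ev E x y z = algebraMap K R a * x + algebraMap K R b * z := by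
  refine IsWeightedHomogeneous.induction_on (motive := fun p _ => ∃ a b : K,
    ∀ {R : Type} [CommRing R] [Algebra K R] (x y z : R),
      ev p x y z = algebraMap K R a * x + algebraMap K R b * z) ?_ ?_ ?_ hE
  · refine ⟨0, 0, fun {R} _ _ x y z => ?_⟩
    rw [ev_zero, map_zero]
    ring
  · rintro p q - - ⟨a, b, he⟩ ⟨a', b', he'⟩
    refine ⟨a + a', b + b', fun {R} _ _ x y z => ?_⟩
    rw [ev_add, he, he', map_add, map_add]
    ring
  · intro d r hd
    rw [weight_eq] at hd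
    have h : (d 0 = 1 ∧ d 1 = 0 ∧ d 2 = 0) ∨ (d 0 = 0 ∧ d 1 = 0 ∧ d 2 = 1) := by omega
    rcases h with ⟨h0, h1, h2⟩ | ⟨h0, h1, h2⟩
    · refine ⟨r, 0, fun {R} _ _ x y z => ?_⟩
      rw [ev_monomial, h0, h1, h2, map_zero (algebraMap K R)]
      ring
    · refine ⟨0, r, fun {R} _ _ x y z => ?_⟩
      rw [ev_monomial, h0, h1, h2, map_zero (algebraMap K R)]
      ring

/-- forms of degree two -/
def f2 (e : Fin 4 → K) {R : Type} [CommRing R] [Algebra K R] (x y z : R) : R :=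
  algebraMap K R (e 0) * y + algebraMap K R (e 1) * x ^ 2 + algebraMap K R (e 2) * (x * z) +
    algebraMap K R (e 3) * z ^ 2

theorem exists_f2 {E : MvPolynomial (Fin 3) K} (hE : IsWeightedHomogeneous wt E 2) :
    ∃ e : Fin 4 → K, ∀ {R : Type} [CommRing R] [Algebra K R] (x y z : R),
      ev E x y z = f2 e x y z := by
  refine IsWeightedHomogeneous.induction_on (motive := fun p _ => ∃ e : Fin 4 → K,
    ∀ {R : Type} [CommRing R] [Algebra K R] (x y z : R), ev p x y z = f2 e x y z) ?_ ?_ ?_ hE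
  · refine ⟨0, fun {R} _ _ x y z => ?_⟩
    rw [ev_zero]
    simp [f2]
  · rintro p q - - ⟨e, he⟩ ⟨e', he'⟩
    refine ⟨e + e', fun {R} _ _ x y z => ?_⟩
    rw [ev_add, he, he']
    simp only [f2, Pi.add_apply, map_add]
    ring
  · intro d r hd
    rw [weight_eq] at hd
    have h : (d 0 = 0 ∧ d 1 = 1 ∧ d 2 = 0) ∨ (d 0 = 2 ∧ d 1 = 0 ∧ d 2 = 0) ∨
        (d 0 = 1 ∧ d 1 = 0 ∧ d 2 = 1) ∨ (d 0 = 0 ∧ d 1 = 0 ∧ d 2 = 2) := by
      omega
    rcases h with ⟨h0, h1, h2⟩ | ⟨h0, h1, h2⟩ | ⟨h0, h1, h2⟩ | ⟨h0, h1, h2⟩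
    · refine ⟨![r, 0, 0, 0], fun {R} _ _ x y z => ?_⟩
      rw [ev_monomial, h0, h1, h2]
      simp [f2]
    · refine ⟨![0, r, 0, 0], fun {R} _ _ x y z => ?_⟩
      rw [ev_monomial, h0, h1, h2]
      simp [f2]
    · refine ⟨![0, 0, r, 0], fun {R} _ _ x y z => ?_⟩
      rw [ev_monomial, h0, h1, h2]
      simp [f2]
    · refine ⟨![0, 0, 0, r], fun {R} _ _ x y z => ?_⟩
      rw [ev_monomial, h0, h1, h2]
      simp [f2]

/-- the values of a form of degree six without `x` -/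
def gam (g : Fin 4 → K) {R : Type} [CommRing R] [Algebra K R] (y z : R) : R :=
  algebraMap K R (g 0) * y ^ 3 + algebraMap K R (g 1) * (y ^ 2 * z ^ 2) +
    algebraMap K R (g 2) * (y * z ^ 4) + algebraMap K R (g 3) * z ^ 6

theorem exists_gam {F : MvPolynomial (Fin 3) K} (hF : IsWeightedHomogeneous wt F 6) :
    ∃ g : Fin 4 → K, ∀ {R : Type} [CommRing R] [Algebra K R] (y z : R),
      ev F 0 y z = gam g y z := by
  refine IsWeightedHomogeneous.induction_on (motive := fun p _ => ∃ g : Fin 4 → K,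
    ∀ {R : Type} [CommRing R] [Algebra K R] (y z : R), ev p 0 y z = gam g y z) ?_ ?_ ?_ hF
  · refine ⟨0, fun {R} _ _ y z => ?_⟩
    rw [ev_zero]
    simp [gam]
  · rintro p q - - ⟨e, he⟩ ⟨e', he'⟩
    refine ⟨e + e', fun {R} _ _ y z => ?_⟩
    rw [ev_add, he, he']
    simp only [gam, Pi.add_apply, map_add]
    ring
  · intro d r hd
    rw [weight_eq] at hd
    have h : d 0 ≠ 0 ∨ (d 0 = 0 ∧ d 1 = 3 ∧ d 2 = 0) ∨ (d 0 = 0 ∧ d 1 = 2 ∧ d 2 = 2) ∨
        (d 0 = 0 ∧ d 1 = 1 ∧ d 2 = 4) ∨ (d 0 = 0 ∧ d 1 = 0 ∧ d 2 = 6) := by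
      omega
    rcases h with h0 | ⟨h0, h1, h2⟩ | ⟨h0, h1, h2⟩ | ⟨h0, h1, h2⟩ | ⟨h0, h1, h2⟩
    · refine ⟨0, fun {R} _ _ y z => ?_⟩
      rw [ev_monomial, zero_pow h0]
      simp [gam]
    · refine ⟨![r, 0, 0, 0], fun {R} _ _ y z => ?_⟩
      rw [ev_monomial, h0, h1, h2]
      simp [gam]
    · refine ⟨![0, r, 0, 0], fun {R} _ _ y z => ?_⟩
      rw [ev_monomial, h0, h1, h2]
      simp [gam]
    · refine ⟨![0, 0, r, 0], fun {R} _ _ y z => ?_⟩
      rw [ev_monomial, h0, h1, h2]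
      simp [gam]
    · refine ⟨![0, 0, 0, r], fun {R} _ _ y z => ?_⟩
      rw [ev_monomial, h0, h1, h2]
      simp [gam]

/-- **a cone with a vertex, the section `z = 0` of which is in the class** -/
theorem shape [IsAlgClosed K] (h2 : (2 : K) ≠ 0) (hG : GOps K G) (H : MvPolynomial (Fin 3) K)
    (hH : IsWeightedHomogeneous wt H 6) (hα : al H ≠ 0)
    (hD : ((CW H).cls (CW.c H (MvPolynomial.X 2))).Mem G) : (CW H).Mem G ∨
    ∃ (q₀ q₁ : K) (g : Fin 4 → K), ∀ (R : Type) [CommRing R] [Algebra K R] (x y z : R),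
      ev H x y z = gam g (y - algebraMap K R q₀ * x ^ 2 - algebraMap K R q₁ * (x * z)) z := by
  by_cases hτ : ∃ τ : Chg K, NoX (MvPolynomial.aeval τ.fwd H)
  swap
  · push Not at hτ
    exact Or.inl (Pool.Agent.Helper49.CP.cone6_mem h2 hG H hH (Or.inl ⟨hα, hτ⟩))
  obtain ⟨τ, hτ⟩ := hτ
  obtain ⟨m, m', hm⟩ := exists_f1 (τ.hfwd 2)
  by_cases hm0 : m = 0
  swap
  · -- the direction moves `z`
    left
    refine Mem.of_iso (CWi H τ) (cone6_trx hG _
      (MvPolynomial.aeval τ.fwd ((MvPolynomial.X 2 : MvPolynomial (Fin 3) K) ^ 3))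
      (hom_sub _ τ.hfwd hH) (hom_sub _ τ.hfwd ?_) hτ ?_ ?_)
    · have h3 := (MvPolynomial.isWeightedHomogeneous_X K wt 2).pow 3
      exact h3
    · intro hn
      rw [map_pow, MvPolynomial.aeval_X] at hn
      have h3 := hn.ev (R := K) 1 0 0
      rw [ev_pow, ev_pow, hm, hm] at h3
      simp only [Algebra.algebraMap_self, RingHom.id_apply, mul_one, mul_zero, add_zero] at h3
      rw [zero_pow three_ne_zero] at h3
      exact hm0 (pow_eq_zero_iff three_ne_zero |>.1 h3)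
    · refine Mem.of_iso (Pool.Agent.Helper71.QP.clsIso (CWi H τ) _ _
          (fun x => CWi_c _ _ τ x)).symm ?_
      refine cls_pow hG.toKOps (CW.c H (MvPolynomial.X 2)) _ 3 three_ne_zero (fun x => ?_) hD
      exact ev_pow _ _ _ _ _
  · -- the direction does not move `z`
    right
    subst hm0
    obtain ⟨g, hg⟩ := exists_gam (hom_sub _ τ.hfwd hH)
    obtain ⟨e, he⟩ := exists_f2 (τ.hbwd 1)
    obtain ⟨u, u', hu⟩ := exists_f1 (τ.hfwd 0)
    obtain ⟨n, n', hn⟩ := exists_f1 (τ.hbwd 2)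
    -- the formula for `bwd 2`
    have k2 : ∀ (R : Type) [CommRing R] [Algebra K R] (x y z : R),
        algebraMap K R m' * ev (τ.bwd 2) x y z = z := by
      intro R _ _ x y z
      have h3 := ev_aeval (τ.fwd 2) τ.bwd x y z
      rw [τ.bwd_fwd, ev_X, hm] at h3
      simp only [map_zero, zero_mul, zero_add] at h3
      exact h3.symm
    have hmn : m' * n' = 1 ∧ n = 0 := by
      have h3 := k2 K 0 0 1
      have h4 := k2 K 1 0 0
      rw [hn] at h3 h4
      simp only [Algebra.algebraMap_self, RingHom.id_apply, mul_zero, zero_add, add_zero,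
        mul_one] at h3 h4
      refine ⟨h3, ?_⟩
      rcases mul_eq_zero.1 h4 with h5 | h5
      · rw [h5, zero_mul] at h3
        exact absurd h3.symm one_ne_zero
      · exact h5
    obtain ⟨hmn, rfl⟩ := hmn
    -- the coefficient of `y`
    have he0 : e 0 ≠ 0 := by
      intro h0
      have h3 := ev_aeval (τ.bwd 1) τ.fwd (0 : K) 1 0
      rw [τ.fwd_bwd, ev_X, he, hu, hm] at h3
      simp [f2, h0] at h3
    have hH' : ∀ (R : Type) [CommRing R] [Algebra K R] (x y z : R),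
        ev H x y z = gam g (f2 e x y z) (algebraMap K R n' * z) := by
      intro R _ _ x y z
      have h3 := ev_aeval (MvPolynomial.aeval τ.fwd H) τ.bwd x y z
      rw [τ.fb, hτ.ev, hg, he, hn] at h3
      rw [h3, map_zero, zero_mul, zero_add]
    refine ⟨-(e 1 / e 0), -(e 2 / e 0), ![g 0 * e 0 ^ 3,
      3 * g 0 * e 0 ^ 2 * e 3 + g 1 * e 0 ^ 2 * n' ^ 2,
      3 * g 0 * e 0 * e 3 ^ 2 + 2 * g 1 * e 0 * e 3 * n' ^ 2 + g 2 * e 0 * n' ^ 4,
      g 0 * e 3 ^ 3 + g 1 * e 3 ^ 2 * n' ^ 2 + g 2 * e 3 * n' ^ 4 + g 3 * n' ^ 6], ?_⟩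
    intro R _ _ x y z
    have h3 : f2 e x y z = algebraMap K R (e 0) * (y - algebraMap K R (-(e 1 / e 0)) * x ^ 2 -
        algebraMap K R (-(e 2 / e 0)) * (x * z)) + algebraMap K R (e 3) * z ^ 2 := by
      have h4 : algebraMap K R (e 0) * algebraMap K R (-(e 1 / e 0)) =
          - algebraMap K R (e 1) := by
        rw [← map_mul, ← map_neg]
        congr 1
        field_simp
      have h5 : algebraMap K R (e 0) * algebraMap K R (-(e 2 / e 0)) =
          - algebraMap K R (e 2) := by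
        rw [← map_mul, ← map_neg]
        congr 1
        field_simp
      rw [f2]
      linear_combination x ^ 2 * h4 + (x * z) * h5
    rw [hH', h3]
    generalize y - algebraMap K R (-(e 1 / e 0)) * x ^ 2 -
        algebraMap K R (-(e 2 / e 0)) * (x * z) = Y
    simp only [gam, map_add, map_mul, map_pow, map_ofNat, Matrix.cons_val_zero,
      Matrix.cons_val_one, Matrix.cons_val]
    ring

/-- **the constant section** -/
theorem sec_mem [IsAlgClosed K] (hG : GOps K G) {k : Type} [Field k] [Finite k] [Algebra k K]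
    (hW : Pool.Agent.Helper9.QP.Cst k G) (H : MvPolynomial (Fin 3) K)
    (β : MvPolynomial (Fin 3) k) (hβ : IsWeightedHomogeneous wt β 6)
    (h : ∀ (R : Type) [CommRing R] [Algebra K R] (x y : R),
      ev H x y 0 = ev (MvPolynomial.map (algebraMap k K) β) x y 0) :
    ((CW H).cls (CW.c H (MvPolynomial.X 2))).Mem G := by
  set β' := MvPolynomial.map (algebraMap k K) β with hβ'
  have hX : (MvPolynomial.X 2 : MvPolynomial (Fin 3) k) ^ 3 ≠ 0 :=
    pow_ne_zero _ (MvPolynomial.X_ne_zero 2)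
  have hw : IsWeightedHomogeneous wt ((MvPolynomial.X 2 : MvPolynomial (Fin 3) k) ^ 3) 3 :=
    (MvPolynomial.isWeightedHomogeneous_X k wt 2).pow 3
  have h1 := Pool.Agent.Helper49.CP.conic6 hG hW β _ hβ hw hX 0 1 one_ne_zero
  have h3 : Qp β' (MvPolynomial.map (algebraMap k K)
      ((MvPolynomial.X 2 : MvPolynomial (Fin 3) k) ^ 3)) 0 1 = β' := by
    rw [Qp, MvPolynomial.C_0, MvPolynomial.C_1, zero_mul, one_mul, zero_add]
  rw [← hβ', h3] at h1
  have h4 : ((CW β').cls (CW.c β' (MvPolynomial.X 2))).Mem G := by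
    refine cls_root hG.toKOps _ _ 3 three_ne_zero (fun x => ?_) h1
    change ev (MvPolynomial.map (algebraMap k K) (MvPolynomial.X 2 ^ 3)) _ _ _ = _
    rw [map_pow, MvPolynomial.map_X, ev_pow]
    rfl
  refine Mem.of_iso ?_ h4
  exact
    { hom := fun {R} _ _ x => ⟨⟨x.1.1, by
          have k1 : x.1.1.2.2.2 ^ 2 - ev H x.1.1.1 x.1.1.2.1 x.1.1.2.2.1 = 0 := x.1.2
          have k2 : ev (MvPolynomial.X 2 : MvPolynomial (Fin 3) K) x.1.1.1 x.1.1.2.1
            x.1.1.2.2.1 = 0 := x.2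
          rw [ev_X] at k2
          have k3 : x.1.1.2.2.1 = 0 := k2
          rw [k3, h] at k1
          change x.1.1.2.2.2 ^ 2 - ev β' x.1.1.1 x.1.1.2.1 x.1.1.2.2.1 = 0
          rw [k3]
          exact k1⟩, x.2⟩
      inv := fun {R} _ _ x => ⟨⟨x.1.1, by
          have k1 : x.1.1.2.2.2 ^ 2 - ev β' x.1.1.1 x.1.1.2.1 x.1.1.2.2.1 = 0 := x.1.2
          have k2 : ev (MvPolynomial.X 2 : MvPolynomial (Fin 3) K) x.1.1.1 x.1.1.2.1
            x.1.1.2.2.1 = 0 := x.2
          rw [ev_X] at k2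
          have k3 : x.1.1.2.2.1 = 0 := k2
          rw [k3, ← h] at k1
          change x.1.1.2.2.2 ^ 2 - ev H x.1.1.1 x.1.1.2.1 x.1.1.2.2.1 = 0
          rw [k3]
          exact k1⟩, x.2⟩
      inv_hom := fun _ => rfl
      hom_inv := fun _ => rfl
      nat := fun _ _ => rfl }

end Pool.Agent.Helper71.W4
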