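import Pool.Agent.Helper71.W4.Desc
import Pool.Agent.Helper71.W4.Nodal
import Pool.Agent.Helper9.TP.Fibre

/-!
# The two stages of the proof
-/

set_option autoImplicit false

namespace Pool.Agent.Helper71.W4

open Pool.Agent.Helper29.CQ Pool.Agent.Helper65.CC Pool.Agent.Helper87.CC
  Pool.Agent.Helper65.CC.KFn
open Pool.Agent.Helper71.CP (ev ev_aeval ev_X ev_mul ev_C wt CW al)
open Pool.Agent.Helper79.TP (jj)
open Pool.Agent.Helper79.CP (weight_eq)
open Pool.Agent.Helper9.TP (NoV CstA)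
open Pool.Agent.Helper49.CP (ev_z0 hinf)
open MvPolynomial (IsWeightedHomogeneous)
open Polynomial (X C coeff)

variable {k K : Type} [Field k] [Field K] [Algebra k K]
  {G : ∀ (R : Type) [CommRing R] [Algebra K R], Prop}

/-- the variables `x`, `z` of the cone -/
def sw : Fin 2 → Fin 3 := ![1, 0]

theorem ev_sw (A : MvPolynomial (Fin 2) K) {R : Type} [CommRing R] [Algebra K R] (z x r : R) :
    ev (MvPolynomial.rename sw A) z x r = Pool.Agent.Helper79.TP.e2 A x z := by
  unfold ev Pool.Agent.Helper79.TP.e2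
  rw [MvPolynomial.aeval_rename]
  congr 2
  funext i
  fin_cases i <;> rfl

theorem wh_sw {A : MvPolynomial (Fin 2) k} {d : ℕ} (hA : IsWeightedHomogeneous ![2, 1] A d) :
    IsWeightedHomogeneous wt (MvPolynomial.rename sw A) d := by
  classical
  intro m hm
  obtain ⟨u, hu, hu'⟩ := MvPolynomial.coeff_rename_ne_zero sw A m hm
  have h1 := hA hu'
  rw [Finsupp.weight_apply, Finsupp.sum_fintype _ _ (fun i => by simp), Fin.sum_univ_two] at h1
  simp only [Matrix.cons_val_zero, Matrix.cons_val_one, smul_eq_mul, mul_one] at h1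
  have hj : Function.Injective sw := by
    intro a b hab
    fin_cases a <;> fin_cases b <;> first | rfl | exact absurd hab (by decide)
  rw [weight_eq, ← hu]
  have e0 : Finsupp.mapDomain sw u 1 = u 0 := Finsupp.mapDomain_apply hj u 0
  have e2' : Finsupp.mapDomain sw u 0 = u 1 := Finsupp.mapDomain_apply hj u 1
  have e1 : Finsupp.mapDomain sw u 2 = 0 := by
    apply Finsupp.mapDomain_notin_range
    rintro ⟨i, hi⟩
    fin_cases i <;> exact absurd hi (by decide)
  rw [e0, e1, e2']
  omega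

theorem phi_map (A : MvPolynomial (Fin 2) k) :
    phi K (MvPolynomial.map (algebraMap k K) A) = (phi k A).map (algebraMap k K) := by
  have h1 : (phi K).toRingHom.comp (MvPolynomial.map (algebraMap k K)) =
      (Polynomial.mapRingHom (algebraMap k K)).comp (phi k).toRingHom := by
    apply MvPolynomial.ringHom_ext
    · intro c
      change phi K (MvPolynomial.map (algebraMap k K) (MvPolynomial.C c)) =
        (phi k (MvPolynomial.C c)).map (algebraMap k K)
      rw [MvPolynomial.map_C, phi_C, phi_C, Polynomial.map_C]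
    · intro i
      change phi K (MvPolynomial.map (algebraMap k K) (MvPolynomial.X i)) =
        (phi k (MvPolynomial.X i)).map (algebraMap k K)
      rw [MvPolynomial.map_X]
      fin_cases i
      · change phi K (MvPolynomial.X 0) = (phi k (MvPolynomial.X 0)).map (algebraMap k K)
        rw [phi_0, phi_0, Polynomial.map_X]
      · change phi K (MvPolynomial.X 1) = (phi k (MvPolynomial.X 1)).map (algebraMap k K)
        rw [phi_1, phi_1, Polynomial.map_one]
  exact RingHom.congr_fun h1 A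

/-- the first stage -/
theorem stage [IsAlgClosed K] [Finite k] (h2 : (2 : K) ≠ 0) (hG : GOps K G) (hW : CstA G)
    {a₀ : k} (ha₀ : a₀ ≠ 0) (B₀ : MvPolynomial (Fin 2) k)
    (hB₀ : IsWeightedHomogeneous ![2, 1] B₀ 6)
    (hb : Pool.Agent.Helper79.TP.e2 B₀ (1 : k) 0 ≠ 0) (H : MvPolynomial (Fin 3) K)
    (hH : IsWeightedHomogeneous wt H 6)
    (hev : ∀ (R : Type) [CommRing R] [Algebra K R] (z x : R), ev H z x 0 =
      -(4 * algebraMap K R (algebraMap k K a₀)) *
        Pool.Agent.Helper79.TP.e2 (MvPolynomial.map (algebraMap k K) B₀) x z) :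
    (CW H).Mem G ∨ ∃ (κ : k) (q : K) (g : Fin 4 → K), g 0 ≠ 0 ∧
      (∀ (R : Type) [CommRing R] [Algebra K R] (z x r : R), ev H z x r = gam g
        (x - algebraMap K R (algebraMap k K κ) * z ^ 2 - algebraMap K R q * (z * r)) r) := by
  set B' := MvPolynomial.map (algebraMap k K) B₀ with hB'
  have hbK : Pool.Agent.Helper79.TP.e2 B' (1 : K) 0 ≠ 0 := by
    have h1 : Pool.Agent.Helper79.TP.e2 B' (1 : K) 0 =
        algebraMap k K (Pool.Agent.Helper79.TP.e2 B₀ (1 : k) 0) := by
      unfold Pool.Agent.Helper79.TP.e2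
      rw [hB', MvPolynomial.aeval_map_algebraMap]
      have h3 : (![1, 0] : Fin 2 → K) = algebraMap k K ∘ ![1, 0] := by
        funext i
        fin_cases i
        · exact (map_one _).symm
        · exact (map_zero _).symm
      rw [h3]
      exact MvPolynomial.aeval_algebraMap_apply _ _ _
    rw [h1]
    exact fun h => hb ((map_eq_zero_iff _ (algebraMap k K).injective).1 h)
  have h4 : (4 : K) ≠ 0 := by
    have : (4 : K) = 2 * 2 := by norm_num
    rw [this]
    exact mul_ne_zero h2 h2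
  have ha : algebraMap k K a₀ ≠ 0 := fun h =>
    ha₀ ((map_eq_zero_iff _ (algebraMap k K).injective).1 h)
  have hα : al H = -(4 * algebraMap k K a₀) * Pool.Agent.Helper79.TP.e2 B' (1 : K) 0 := by
    have k1 := ev_z0 hH (0 : K) 1
    have k2 := hev K 0 1
    rw [k1] at k2
    simpa [hinf] using k2
  have hα0 : al H ≠ 0 := by
    rw [hα]
    exact mul_ne_zero (neg_ne_zero.2 (mul_ne_zero h4 ha)) hbK
  have hsec := sec_mem hG (hW k) H (MvPolynomial.C (-(4 * a₀)) * MvPolynomial.rename sw B₀)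
    ((wh_sw hB₀).C_mul _) (fun R _ _ z x => by
      rw [hev, map_mul, MvPolynomial.map_C, MvPolynomial.map_rename, ev_mul, ev_C, ev_sw,
        map_neg, map_neg, map_mul, map_mul, map_ofNat, map_ofNat])
  rcases shape h2 hG H hH hα0 hsec with h | ⟨q₀, q, g, h⟩
  · exact Or.inl h
  right
  have hg : g 0 ≠ 0 := by
    have k1 := h K 0 1 0
    have k2 := hev K 0 1
    rw [k1] at k2
    have k3 : gam g (1 - algebraMap K K q₀ * 0 ^ 2 - algebraMap K K q * (0 * 0)) (0 : K) = g 0 := by
      simp [gam]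
    rw [k3] at k2
    rw [k2]
    exact mul_ne_zero (neg_ne_zero.2 (mul_ne_zero h4 ha)) hbK
  obtain ⟨κ, hκ⟩ : ∃ κ : k, algebraMap k K κ = q₀ := by
    refine q_in hg (β := C (-(4 * a₀)) * phi k B₀) ?_
    have k1 := h (Polynomial K) 1 X 0
    have k2 := hev (Polynomial K) 1 X
    rw [k1] at k2
    have k3 : gam g (X - algebraMap K (Polynomial K) q₀ * 1 ^ 2 -
        algebraMap K (Polynomial K) q * (1 * 0)) (0 : Polynomial K) = C (g 0) * (X - C q₀) ^ 3 := by
      have e1 : ∀ a : K, algebraMap K (Polynomial K) a = C a := fun _ => rfl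
      simp only [gam, e1]
      ring
    have k4 : Pool.Agent.Helper79.TP.e2 B' (X : Polynomial K) 1 = (phi k B₀).map
        (algebraMap k K) := by
      rw [← phi_map]
      rfl
    rw [k3, k4] at k2
    rw [k2, Polynomial.map_mul, Polynomial.map_C, map_neg, map_mul, map_ofNat, map_neg, map_mul,
      map_ofNat]
    rfl
  refine ⟨κ, q, g, hg, fun R _ _ z x r => ?_⟩
  rw [h, hκ]

/-- the second stage -/
theorem core [IsAlgClosed K] [Finite k] (h2 : (2 : K) ≠ 0) (hG : GOps K G) (hW : CstA G)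
    {s t : ℕ} (hs : 0 < s) (ht : 0 < t) (hst : s ≠ t) (hle : s + t ≤ 6)
    {a₀ b₀ : k} (ha₀ : a₀ ≠ 0) (hb₀ : b₀ ≠ 0) {c : K} (hc : c ≠ 0)
    (A₁ B₁ A₂ B₂ : MvPolynomial (Fin 2) k) (hA₂ : 3 < s + t → A₂ = 0)
    (n₁ : ¬ (A₁ = 0 ∧ B₁ = 0)) (n₂ : ¬ (A₂ = 0 ∧ B₂ = 0)) (H : MvPolynomial (Fin 3) K)
    (hH : IsWeightedHomogeneous wt H 6)
    (hev : ∀ (R : Type) [CommRing R] [Algebra K R] (z x r : R), ev H z x r =
      (-(r ^ t * Pool.Agent.Helper79.TP.e2 (MvPolynomial.map (algebraMap k K) A₁) x z) +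
        algebraMap K R c * r ^ (s + t) *
          Pool.Agent.Helper79.TP.e2 (MvPolynomial.map (algebraMap k K) A₂) x z) ^ 2 -
      4 * algebraMap K R (algebraMap k K a₀) * (algebraMap K R (algebraMap k K b₀) * x ^ 3 -
        r ^ t * Pool.Agent.Helper79.TP.e2 (MvPolynomial.map (algebraMap k K) B₁) x z +
        algebraMap K R c * r ^ (s + t) *
          Pool.Agent.Helper79.TP.e2 (MvPolynomial.map (algebraMap k K) B₂) x z)) :
    (CW H).Mem G ∨ (ZF A₁ ∧ ZF B₁ ∧ ZF A₂ ∧ ZF B₂) := by
  have hst0 : s + t ≠ 0 := by omega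
  have hX : IsWeightedHomogeneous ![2, 1] (MvPolynomial.X 0 ^ 3 : MvPolynomial (Fin 2) k) 6 :=
    (MvPolynomial.isWeightedHomogeneous_X k ![2, 1] 0).pow 3
  have hm0 : ∀ A : MvPolynomial (Fin 2) k, MvPolynomial.map (algebraMap k K) A = 0 → A = 0 := by
    intro A h
    apply MvPolynomial.map_injective _ (algebraMap k K).injective
    rw [h, map_zero]
  have eb : ∀ (R : Type) [CommRing R] [Algebra K R] (x z : R), Pool.Agent.Helper79.TP.e2
      (MvPolynomial.map (algebraMap k K) (MvPolynomial.C b₀ * MvPolynomial.X 0 ^ 3)) x z =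
      algebraMap K R (algebraMap k K b₀) * x ^ 3 := by
    intro R _ _ x z
    unfold Pool.Agent.Helper79.TP.e2
    rw [map_mul, map_pow, MvPolynomial.map_C, MvPolynomial.map_X, map_mul, map_pow,
      MvPolynomial.aeval_C, MvPolynomial.aeval_X]
    rfl
  rcases stage h2 hG hW ha₀ (MvPolynomial.C b₀ * MvPolynomial.X 0 ^ 3) (hX.C_mul b₀) (by
      unfold Pool.Agent.Helper79.TP.e2
      rw [map_mul, map_pow, MvPolynomial.aeval_C, MvPolynomial.aeval_X]
      change b₀ * 1 ^ 3 ≠ 0
      rw [one_pow, mul_one]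
      exact hb₀) H hH (fun R _ _ z x => by
      rw [hev, eb, zero_pow ht.ne', zero_pow hst0]
      ring) with h | ⟨κ, q, g, hg, h⟩
  · exact Or.inl h
  -- `κ = 0`
  have hκ : algebraMap k K κ = 0 := by
    have k1 := h K 1 0 0
    rw [hev, zero_pow ht.ne', zero_pow hst0] at k1
    have k2 : gam g (0 - algebraMap K K (algebraMap k K κ) * 1 ^ 2 -
        algebraMap K K q * (1 * 0)) (0 : K) = - (g 0 * algebraMap k K κ ^ 3) := by
      simp only [gam, Algebra.algebraMap_self, RingHom.id_apply]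
      ring
    rw [k2] at k1
    have k3 : g 0 * algebraMap k K κ ^ 3 = 0 := by
      linear_combination k1
    exact (pow_eq_zero_iff three_ne_zero).1 ((mul_eq_zero.1 k3).resolve_left hg)
  have hcmp := comp_r h2 hs ht hst hle (a := algebraMap k K a₀) (c := c)
    (b := algebraMap k K b₀) (q := q) (fun h => ha₀ ((map_eq_zero_iff _
      (algebraMap k K).injective).1 h)) hc hg (α₁ := MvPolynomial.map (algebraMap k K) A₁)
    (β₁ := MvPolynomial.map (algebraMap k K) B₁) (α₂ := MvPolynomial.map (algebraMap k K) A₂)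
    (β₂ := MvPolynomial.map (algebraMap k K) B₂) (fun h => by rw [hA₂ h, map_zero]) (by
      have k1 := h (Polynomial (MvPolynomial (Fin 2) K)) (C (MvPolynomial.X 1))
        (C (MvPolynomial.X 0)) X
      rw [hev, e2_gen, e2_gen, e2_gen, e2_gen, hκ, map_zero, zero_mul, sub_zero] at k1
      have ha : ∀ a : K, algebraMap K (Polynomial (MvPolynomial (Fin 2) K)) a =
        C (MvPolynomial.C a) := fun _ => rfl
      have k2 : C (MvPolynomial.X 0 : MvPolynomial (Fin 2) K) -
          C (MvPolynomial.C q * MvPolynomial.X 1) * X = C (MvPolynomial.X 0) -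
          algebraMap K (Polynomial (MvPolynomial (Fin 2) K)) q * (C (MvPolynomial.X 1) * X) := by
        rw [ha, Polynomial.C_mul]
        ring
      rw [k2, ← k1]
      simp only [ha, map_mul, map_pow, map_ofNat]
      ring)
  rcases hcmp with ⟨z1, z2, z3, z4⟩ | ⟨z1, z2⟩ | ⟨z1, z2⟩ | ⟨z1, z2⟩
  · exact Or.inr ⟨z1.of_map, z2.of_map, z3.of_map, z4.of_map⟩
  · exact absurd ⟨hm0 _ z1, hm0 _ z2⟩ n₁
  · exact absurd ⟨hm0 _ z1, hm0 _ z2⟩ n₂
  · exact Or.inl (nodal hG H _ q g z1 z2 h)

end Pool.Agent.Helper71.W4
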